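import Pool.Agent.J6H99.NX.Stm

/-!
# Module RAY: geodesic rays from the separation of the functionals
-/

set_option autoImplicit false

open MeasureTheory ProbabilityTheory Filter Topology
open scoped ENNReal

namespace Pool.Agent.J6H54.NX

open Pool.Agent.J6H99.NX

variable {e : ℕ}

/-! ### Deterministic part -/

lemma ball_finite (K : ℤ) : {x : V e | n1 x ≤ K}.Finite := by
  refine (Set.finite_Icc (fun _ => -K : V e) (fun _ => K)).subset fun x hx => ?_
  have h : ∀ i, |x i| ≤ K := fun i => (coord_le_n1 x i).trans hx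
  exact ⟨fun i => (abs_le.1 (h i)).1, fun i => (abs_le.1 (h i)).2⟩

/-- far points are reached late -/
def Far (q : Par) (ω : Om e) : Prop :=
  ∃ (c1 : ℝ) (n0 : ℕ), 0 < c1 ∧ ∀ y : V e, (n0 : ℤ) ≤ n1 y → c1 * n1 y ≤ T q ω 0 y

lemma sublevel_finite {q : Par} {ω : Om e} (h : Far q ω) (M : ℝ) :
    {y : V e | T q ω 0 y ≤ M}.Finite := by
  obtain ⟨c1, n0, hc, h⟩ := h
  refine (ball_finite (max (n0 : ℤ) ⌈M / c1⌉)).subset fun y hy => ?_
  have hy' : T q ω 0 y ≤ M := hy
  show n1 y ≤ max (n0 : ℤ) ⌈M / c1⌉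
  by_contra hlt
  push Not at hlt
  have h1 : (n0 : ℤ) ≤ n1 y := (le_max_left _ _).trans hlt.le
  have h2 := h y h1
  have h3 : ⌈M / c1⌉ < n1 y := (le_max_right _ _).trans_lt hlt
  have h4 : (M / c1) < n1 y := (Int.le_ceil _).trans_lt (by exact_mod_cast h3)
  rw [div_lt_iff₀ hc] at h4
  linarith

lemma cost_bypass (q : Par) (ω : Om e) {x y : V e} (p : (lat e).Walk x y) :
    cost q ω p.bypass ≤ cost q ω p := by
  classical
  induction p with
  | nil => simp [SimpleGraph.Walk.bypass]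
  | @cons x y z h p ih =>
    rw [SimpleGraph.Walk.bypass]
    split_ifs with hs
    · have h1 : cost q ω (p.bypass.takeUntil _ hs) + cost q ω (p.bypass.dropUntil _ hs) =
          cost q ω p.bypass := by rw [← cost_append, SimpleGraph.Walk.take_spec]
      have h2 := cost_nonneg q ω (p.bypass.takeUntil _ hs)
      have h3 := q.w_nonneg (ω s(x, y))
      rw [cost_cons]
      linarith
    · rw [cost_cons, cost_cons]
      linarith

/-- vertices of a walk are reached before its end -/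
lemma T_le_of_mem (q : Par) (ω : Om e) {x y v : V e} (p : (lat e).Walk x y)
    (hv : v ∈ p.support) : T q ω x v ≤ cost q ω p := by
  classical
  have h1 : cost q ω (p.takeUntil _ hv) + cost q ω (p.dropUntil _ hv) = cost q ω p := by
    rw [← cost_append, SimpleGraph.Walk.take_spec]
  have h2 := cost_nonneg q ω (p.dropUntil _ hv)
  have h3 := T_le q ω (p.takeUntil _ hv)
  linarith

/-- minimal paths exist -/
lemma exists_geodesic {q : Par} {ω : Om e} (h : Far q ω) (z : V e) :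
    ∃ p : (lat e).Walk 0 z, p.IsPath ∧ cost q ω p = T q ω 0 z := by
  classical
  -- the paths of cost at most `T + 1` have finitely many possible costs
  set B : Finset (V e) := (sublevel_finite h (T q ω 0 z + 1)).toFinset with hB
  set EB : Finset (Sym2 (V e)) := (B ×ˢ B).image (fun a => s(a.1, a.2)) with hEB
  set C : Set ℝ := {t | ∃ p : (lat e).Walk 0 z, p.IsPath ∧ cost q ω p = t ∧
    cost q ω p ≤ T q ω 0 z + 1} with hC
  have hfin : C.Finite := by
    refine (EB.powerset.image (fun A => ∑ s ∈ A, q.w (ω s))).finite_toSet.subset ?_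
    rintro t ⟨p, hp, hpt, hc⟩
    rw [Finset.mem_coe, Finset.mem_image]
    refine ⟨p.edges.toFinset, ?_, ?_⟩
    · rw [Finset.mem_powerset]
      intro s hs
      rw [List.mem_toFinset] at hs
      induction s with
      | _ a b =>
        have ha : a ∈ p.support := p.fst_mem_support_of_mem_edges hs
        have hb : b ∈ p.support := p.snd_mem_support_of_mem_edges hs
        have ha' : a ∈ B := by
          rw [hB, Set.Finite.mem_toFinset]
          exact (T_le_of_mem q ω p ha).trans hc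
        have hb' : b ∈ B := by
          rw [hB, Set.Finite.mem_toFinset]
          exact (T_le_of_mem q ω p hb).trans hc
        exact Finset.mem_image.2 ⟨(a, b), Finset.mem_product.2 ⟨ha', hb'⟩, rfl⟩
    · show ∑ s ∈ p.edges.toFinset, q.w (ω s) = t
      rw [← hpt, List.sum_toFinset _ hp.isTrail.edges_nodup]
      rfl
  have hne : C.Nonempty := by
    obtain ⟨p, hp⟩ := exists_near q ω 0 z one_pos
    exact ⟨_, p.bypass, p.bypass_isPath, rfl, (cost_bypass q ω p).trans hp.le⟩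
  obtain ⟨t, ⟨p, hp, hpt, hc⟩, hmin⟩ := Set.exists_min_image C id hfin hne
  refine ⟨p, hp, le_antisymm ?_ (T_le q ω p)⟩
  refine le_ciInf fun p' => ?_
  by_cases hp' : cost q ω p' ≤ T q ω 0 z + 1
  · have h1 := hmin (cost q ω p'.bypass)
      ⟨p'.bypass, p'.bypass_isPath, rfl, (cost_bypass q ω p').trans hp'⟩
    simp only [id] at h1
    rw [hpt]
    exact h1.trans (cost_bypass q ω p')
  · push Not at hp'
    exact hc.trans hp'.le

/-- the cost of a walk as a sum over its vertices -/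
lemma cost_eq_sum (q : Par) (ω : Om e) {x y : V e} (p : (lat e).Walk x y) :
    cost q ω p = ∑ k ∈ Finset.range p.length, q.w (ω s(p.getVert k, p.getVert (k + 1))) := by
  induction p with
  | nil => simp [cost_nil]
  | @cons x y z h p ih =>
    rw [cost_cons, SimpleGraph.Walk.length_cons, Finset.sum_range_succ', ih]
    simp only [SimpleGraph.Walk.getVert_cons_succ, SimpleGraph.Walk.getVert_zero]
    rw [add_comm]

lemma T_adj_le (q : Par) (ω : Om e) {x y : V e} (h : (lat e).Adj x y) :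
    T q ω x y ≤ q.w (ω s(x, y)) := by
  have := T_le q ω (SimpleGraph.Walk.cons h SimpleGraph.Walk.nil)
  rw [cost_cons, cost_nil, add_zero] at this
  exact this

lemma T_self (q : Par) (ω : Om e) (x : V e) : T q ω x x = 0 := by
  refine le_antisymm ?_ (T_nonneg q ω x x)
  have := T_le q ω (SimpleGraph.Walk.nil : (lat e).Walk x x)
  rwa [cost_nil] at this

/-- passage times along a sequence -/
lemma T_le_sum (q : Par) (ω : Om e) (x : ℕ → V e) (m n : ℕ) (hmn : m ≤ n)
    (h : ∀ k, m ≤ k → k < n → (lat e).Adj (x k) (x (k + 1))) :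
    T q ω (x m) (x n) ≤ ∑ k ∈ Finset.Ico m n, q.w (ω s(x k, x (k + 1))) := by
  induction n, hmn using Nat.le_induction with
  | base => simp [T_self]
  | succ n hmn ih =>
    rw [Finset.sum_Ico_succ_top hmn]
    have h1 := ih fun k hk hk' => h k hk (by omega)
    have h2 := T_tri q ω (x m) (x n) (x (n + 1))
    have h3 := T_adj_le q ω (h n hmn (by omega))
    linarith

/-- the data of a minimal path to a half-space -/
structure Seg (q : Par) (ω : Om e) (c : E e) (t : ℝ) (L : ℕ) (x : ℕ → V e) : Prop where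
  zero : x 0 = 0
  adj : ∀ k, k < L → (lat e).Adj (x k) (x (k + 1))
  inj : ∀ m n, m ≤ L → n ≤ L → x m = x n → m = n
  geo : ∀ m n, m ≤ n → n ≤ L →
    T q ω (x m) (x n) = ∑ k ∈ Finset.Ico m n, q.w (ω s(x k, x (k + 1)))
  good : ∀ k, k ≤ L → T q ω 0 (x k) + TH q ω c (x k) t ≤ TH q ω c 0 t
  long : t ≤ nr c * L

lemma bdd_TH (q : Par) (ω : Om e) (c : E e) (z : V e) (t : ℝ) :
    BddBelow (Set.range fun y : {y : V e // t ≤ lf c y} => T q ω z y) :=
  ⟨0, by rintro _ ⟨p, rfl⟩; exact T_nonneg q ω z _⟩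

lemma exists_level (c y : E e) (hy : 0 < dt c y) (t : ℝ) : ∃ z : V e, t ≤ lf c z := by
  obtain ⟨n, hn⟩ := exists_nat_ge ((t + nr c * ((e : ℝ) + 2)) / dt c y)
  refine ⟨rnd ((n : ℝ) • y), ?_⟩
  have h1 := (abs_le.1 (abs_lf_rnd_sub c ((n : ℝ) • y))).1
  rw [dt_smul] at h1
  rw [div_le_iff₀ hy] at hn
  linarith

lemma exists_Seg {q : Par} {ω : Om e} (h : Far q ω) (c y : E e) (hy : 0 < dt c y) (t : ℝ) :
    ∃ (L : ℕ) (x : ℕ → V e), Seg q ω c t L x := by
  classical
  obtain ⟨z0, hz0⟩ := exists_level c y hy t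
  -- the first point of the half-space
  obtain ⟨z, ⟨hz1, hz2⟩, hmin⟩ := Set.exists_min_image
    {z : V e | t ≤ lf c z ∧ T q ω 0 z ≤ T q ω 0 z0} (fun z => T q ω 0 z)
    ((sublevel_finite h _).subset fun z hz => hz.2) ⟨z0, hz0, le_rfl⟩
  have hmin' : ∀ z' : V e, t ≤ lf c z' → T q ω 0 z ≤ T q ω 0 z' := by
    intro z' hz'
    by_cases h1 : T q ω 0 z' ≤ T q ω 0 z0
    · exact hmin z' ⟨hz', h1⟩
    · push Not at h1
      exact hz2.trans h1.le
  have : Nonempty {y : V e // t ≤ lf c y} := ⟨⟨z, hz1⟩⟩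
  have hTH : T q ω 0 z ≤ TH q ω c 0 t := le_ciInf fun y => hmin' y y.2
  obtain ⟨p, hp, hc⟩ := exists_geodesic h z
  have hadj : ∀ k, k < p.length → (lat e).Adj (p.getVert k) (p.getVert (k + 1)) :=
    fun k hk => p.adj_getVert_succ hk
  have hle : ∀ m n, m ≤ n → n ≤ p.length → T q ω (p.getVert m) (p.getVert n) ≤
      ∑ k ∈ Finset.Ico m n, q.w (ω s(p.getVert k, p.getVert (k + 1))) := fun m n hmn hn =>
    T_le_sum q ω p.getVert m n hmn fun k _ hk => hadj k (by omega)
  have hsum : ∑ k ∈ Finset.Ico 0 p.length, q.w (ω s(p.getVert k, p.getVert (k + 1))) =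
      T q ω 0 z := by rw [← Finset.range_eq_Ico, ← cost_eq_sum, hc]
  have h0 : p.getVert 0 = 0 := p.getVert_zero
  have hL : p.getVert p.length = z := p.getVert_length
  refine ⟨p.length, p.getVert, h0, hadj, ?_, ?_, ?_, ?_⟩
  · intro m n hm hn hmn
    exact hp.getVert_injOn hm hn hmn
  · intro m n hmn hn
    refine le_antisymm (hle m n hmn hn) ?_
    have h1 := hle 0 m (Nat.zero_le _) (hmn.trans hn)
    have h2 := hle n p.length hn le_rfl
    have h3 := T_tri q ω (p.getVert 0) (p.getVert m) (p.getVert p.length)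
    have h4 := T_tri q ω (p.getVert m) (p.getVert n) (p.getVert p.length)
    have h5 : ∑ k ∈ Finset.Ico 0 m, q.w (ω s(p.getVert k, p.getVert (k + 1))) +
        ∑ k ∈ Finset.Ico m n, q.w (ω s(p.getVert k, p.getVert (k + 1))) =
        ∑ k ∈ Finset.Ico 0 n, q.w (ω s(p.getVert k, p.getVert (k + 1))) :=
      Finset.sum_Ico_consecutive _ (Nat.zero_le _) hmn
    have h6 : ∑ k ∈ Finset.Ico 0 n, q.w (ω s(p.getVert k, p.getVert (k + 1))) +
        ∑ k ∈ Finset.Ico n p.length, q.w (ω s(p.getVert k, p.getVert (k + 1))) =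
        ∑ k ∈ Finset.Ico 0 p.length, q.w (ω s(p.getVert k, p.getVert (k + 1))) :=
      Finset.sum_Ico_consecutive _ (Nat.zero_le _) hn
    rw [hsum] at h6
    rw [hL, h0] at h3
    rw [hL] at h4 h2
    rw [h0] at h1
    linarith
  · intro k hk
    have h1 := hle 0 k (Nat.zero_le _) hk
    have h2 := hle k p.length hk le_rfl
    have h6 : ∑ k ∈ Finset.Ico 0 k, q.w (ω s(p.getVert k, p.getVert (k + 1))) +
        ∑ k ∈ Finset.Ico k p.length, q.w (ω s(p.getVert k, p.getVert (k + 1))) =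
        ∑ k ∈ Finset.Ico 0 p.length, q.w (ω s(p.getVert k, p.getVert (k + 1))) :=
      Finset.sum_Ico_consecutive _ (Nat.zero_le _) hk
    have h3 : TH q ω c (p.getVert k) t ≤ T q ω (p.getVert k) z :=
      ciInf_le (bdd_TH q ω c (p.getVert k) t) (⟨z, hz1⟩ : {y : V e // t ≤ lf c y})
    rw [h0] at h1
    rw [hL] at h2
    linarith
  · have h1 : (n1 z : ℝ) ≤ p.length := by
      have := n1_le_length p
      rw [sub_zero] at this
      exact_mod_cast this
    have h2 := (abs_le.1 (abs_lf_le c z)).2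
    have h3 := mul_le_mul_of_nonneg_left h1 (nr_nonneg c)
    linarith

lemma n1_step {x y : V e} (h : (lat e).Adj x y) : n1 y ≤ n1 x + 1 := by
  have h1 : n1 (y - x) = 1 := by rw [n1_sub_comm]; exact h
  have h2 := n1_add_le (y - x) x
  rw [sub_add_cancel] at h2
  linarith

lemma Seg.n1_le {q : Par} {ω : Om e} {c : E e} {t : ℝ} {L : ℕ} {x : ℕ → V e}
    (h : Seg q ω c t L x) (k : ℕ) (hk : k ≤ L) : n1 (x k) ≤ k := by
  induction k with
  | zero => rw [h.zero]; simp
  | succ k ih =>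
    have h1 := ih (by omega)
    have h2 := n1_step (h.adj k (by omega))
    push_cast
    linarith

/-- König's lemma, by an ultrafilter -/
lemma konig (L : ℕ → ℕ) (X : ℕ → ℕ → V e) (hL : ∀ J, J ≤ L J)
    (hX : ∀ J k, k ≤ L J → n1 (X J k) ≤ k) :
    ∃ x : ℕ → V e, ∀ n, ∃ J, n ≤ J ∧ ∀ k, k ≤ n → X J k = x k := by
  have h1 : ∀ k : ℕ, ∃ a : V e, ∀ᶠ J in (hyperfilter ℕ : Filter ℕ), X J k = a := by
    intro k
    have h2 : ∀ᶠ J in (hyperfilter ℕ : Filter ℕ), ∃ a ∈ {x : V e | n1 x ≤ (k : ℤ)}, X J k = a := by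
      have h3 : ∀ᶠ J in (hyperfilter ℕ : Filter ℕ), k ≤ J :=
        Nat.hyperfilter_le_atTop (eventually_ge_atTop k)
      filter_upwards [h3] with J hJ
      exact ⟨X J k, hX J k (hJ.trans (hL J)), rfl⟩
    rw [Ultrafilter.eventually_exists_mem_iff (ball_finite _)] at h2
    obtain ⟨a, -, ha⟩ := h2
    exact ⟨a, ha⟩
  choose x hx using h1
  refine ⟨x, fun n => ?_⟩
  have h4 : ∀ᶠ J in (hyperfilter ℕ : Filter ℕ), ∀ k ∈ Finset.range (n + 1), X J k = x k :=
    (eventually_all_finset _).2 fun k _ => hx k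
  have h3 : ∀ᶠ J in (hyperfilter ℕ : Filter ℕ), n ≤ J :=
    Nat.hyperfilter_le_atTop (eventually_ge_atTop n)
  obtain ⟨J, hJ1, hJ2⟩ := (h3.and h4).exists
  exact ⟨J, hJ1, fun k hk => hJ2 k (Finset.mem_range.2 (by omega))⟩

/-- the ray of a functional -/
lemma exists_ray {q : Par} {F : Measure ℝ} [IsProbabilityMeasure F] {ω : Om e} (h : Far q ω)
    (c y : E e) (hy : 0 < dt c y) {η : ℝ} {m : ℕ}
    (hb : ∃ᶠ t : ℕ in atTop, ω ∉ Bad q F c η m t) :
    ∃ x : ℕ → V e, Ray q ω x ∧ ∀ k, n1 (x k) = m → g q F (x k) ≤ lf c (x k) + η * m := by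
  have h1 : ∀ J : ℕ, ∃ (t : ℝ) (L : ℕ) (x : ℕ → V e), ω ∉ Bad q F c η m t ∧ J ≤ L ∧
      Seg q ω c t L x := by
    intro J
    obtain ⟨N, hN⟩ := exists_nat_gt (nr c * J)
    obtain ⟨t, ht1, ht2⟩ := (hb.and_eventually (eventually_ge_atTop N)).exists
    obtain ⟨L, x, hx⟩ := exists_Seg h c y hy t
    refine ⟨t, L, x, ht1, ?_, hx⟩
    by_contra hlt
    push Not at hlt
    have h2 := hx.long
    have h3 : (L : ℝ) ≤ J := by exact_mod_cast hlt.le
    have h4 := mul_le_mul_of_nonneg_left h3 (nr_nonneg c)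
    have h5 : (N : ℝ) ≤ t := by exact_mod_cast ht2
    linarith
  choose t L X hbad hJL hX using h1
  obtain ⟨x, hx⟩ := konig L X hJL fun J k hk => (hX J).n1_le k hk
  refine ⟨x, ⟨?_, ?_, ?_, ?_⟩, ?_⟩
  · obtain ⟨J, _, hJ⟩ := hx 0
    rw [← hJ 0 le_rfl, (hX J).zero]
  · intro n
    obtain ⟨J, hnJ, hJ⟩ := hx (n + 1)
    rw [← hJ n (by omega), ← hJ (n + 1) le_rfl]
    exact (hX J).adj n (by have := hJL J; omega)
  · intro a b hab
    obtain ⟨J, hnJ, hJ⟩ := hx (max a b)
    rw [← hJ a (le_max_left _ _), ← hJ b (le_max_right _ _)] at hab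
    have h2 := hJL J
    exact (hX J).inj a b (by omega) (by omega) hab
  · intro a b hab
    obtain ⟨J, hnJ, hJ⟩ := hx (b + 1)
    have h2 := hJL J
    rw [← hJ a (by omega), ← hJ b (by omega), (hX J).geo a b hab (by omega)]
    refine Finset.sum_congr rfl fun k hk => ?_
    rw [Finset.mem_Ico] at hk
    rw [← hJ k (by omega), ← hJ (k + 1) (by omega)]
  · intro k hk
    obtain ⟨J, hnJ, hJ⟩ := hx k
    have h2 := hJL J
    have h3 := (hX J).good k (by omega)
    rw [hJ k le_rfl] at h3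
    by_contra hlt
    push Not at hlt
    exact hbad J ⟨x k, hk, h3, hlt⟩

/-- a ray passes through every distance -/
lemma Ray.exists_dist {q : Par} {ω : Om e} {x : ℕ → V e} (h : Ray q ω x) (m : ℕ) :
    ∃ k, n1 (x k) = m := by
  classical
  obtain ⟨h0, hadj, hinj, -⟩ := h
  have h1 : ∃ k, (m : ℤ) ≤ n1 (x k) := by
    by_contra hne
    push Not at hne
    have h2 : (Set.range x) ⊆ {y : V e | n1 y ≤ m} := by
      rintro _ ⟨k, rfl⟩
      exact (hne k).le
    exact (Set.infinite_range_of_injective hinj) ((ball_finite _).subset h2)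
  have h2 := Nat.find_spec h1
  refine ⟨Nat.find h1, le_antisymm ?_ h2⟩
  rcases Nat.eq_zero_or_pos (Nat.find h1) with h3 | h3
  · rw [h3, h0, n1_zero]; positivity
  · obtain ⟨k, hk⟩ : ∃ k, Nat.find h1 = k + 1 := ⟨Nat.find h1 - 1, by omega⟩
    have h4 : ¬ (m : ℤ) ≤ n1 (x k) := Nat.find_min h1 (by omega)
    rw [hk]
    have h5 := n1_step (hadj k)
    omega

/-! ### Probabilistic part -/

lemma ae_Far {q : Par} {F : Measure ℝ} [IsProbabilityMeasure F] (h : FarB e q F) :
    ∀ᵐ ω ∂(PM e F), Far q ω := by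
  obtain ⟨c1, hc, h⟩ := h
  obtain ⟨C, hC, h⟩ := h 1
  rw [ae_iff]
  refine nonpos_iff_eq_zero.1 ?_
  have h1 : ∀ n : ℕ, PM e F {ω | ¬ Far q ω} ≤ ENNReal.ofReal (C / ((n : ℝ) + 1) ^ 1) := by
    intro n
    refine le_trans (measure_mono ?_) (h n)
    intro ω hω
    show ∃ y : V e, (n : ℤ) ≤ n1 y ∧ T q ω 0 y < c1 * n1 y
    by_contra hne
    push Not at hne
    exact hω ⟨c1, n, hc, hne⟩
  have h2 : Tendsto (fun n : ℕ => ENNReal.ofReal (C / ((n : ℝ) + 1) ^ 1)) atTop (𝓝 0) := by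
    rw [← ENNReal.ofReal_zero]
    refine ENNReal.tendsto_ofReal ?_
    simp only [pow_one]
    exact tendsto_const_nhds.div_atTop (tendsto_natCast_atTop_atTop.atTop_add tendsto_const_nhds)
  exact ge_of_tendsto' h2 h1

/-- the probability that all large `t` are bad -/
lemma prob_eventually {Ω : Type*} [MeasurableSpace Ω] (μ : Measure Ω) (B : ℕ → Set Ω) {ε : ℝ}
    (hε : 0 < ε) (h : ∃ N0 : ℕ, ∀ N : ℕ, N0 ≤ N →
      ∑ t ∈ Finset.range N, μ (B t) ≤ ENNReal.ofReal (ε * N)) :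
    μ {ω | ∀ᶠ t in atTop, ω ∈ B t} ≤ ENNReal.ofReal (2 * ε) := by
  obtain ⟨N0, h⟩ := h
  have h1 : {ω | ∀ᶠ t in atTop, ω ∈ B t} = ⋃ n : ℕ, {ω | ∀ t, n ≤ t → ω ∈ B t} := by
    ext ω
    simp [eventually_atTop]
  have hmono : Monotone fun n : ℕ => {ω | ∀ t, n ≤ t → ω ∈ B t} :=
    fun a b hab ω hω t ht => hω t (hab.trans ht)
  rw [h1, hmono.measure_iUnion]
  refine iSup_le fun n => ?_
  -- choose `t ≥ n` with small probability
  by_contra hlt
  push Not at hlt
  have h2 : ∀ t, n ≤ t → ENNReal.ofReal (2 * ε) < μ (B t) := fun t ht =>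
    hlt.trans_le (measure_mono fun ω hω => hω t ht)
  set N := 2 * n + N0 + 1 with hN
  have h3 := h N (by omega)
  have h4 : ∑ t ∈ Finset.Ico n N, ENNReal.ofReal (2 * ε) ≤ ∑ t ∈ Finset.range N, μ (B t) := by
    refine (Finset.sum_le_sum fun t ht => (h2 t (Finset.mem_Ico.1 ht).1).le).trans ?_
    exact Finset.sum_le_sum_of_subset fun t ht => Finset.mem_range.2 (Finset.mem_Ico.1 ht).2
  rw [Finset.sum_const, Nat.card_Ico, nsmul_eq_mul] at h4
  have h5 := h4.trans h3
  rw [← ENNReal.ofReal_natCast, ← ENNReal.ofReal_mul (by positivity),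
    ENNReal.ofReal_le_ofReal_iff (by positivity)] at h5
  have h6 : ((N - n : ℕ) : ℝ) = n + N0 + 1 := by
    have : N - n = n + N0 + 1 := by omega
    rw [this]; push_cast; ring
  have h7 : (N : ℝ) = 2 * n + N0 + 1 := by rw [hN]; push_cast; ring
  rw [h6, h7] at h5
  have h8 : (0 : ℝ) ≤ N0 := Nat.cast_nonneg _
  have h9 : (2 * (n + N0 + 1) : ℝ) ≤ 2 * n + N0 + 1 := by
    have : ε * (2 * (n + N0 + 1)) ≤ ε * (2 * n + N0 + 1) := by linarith
    exact le_of_mul_le_mul_left this hε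
  linarith

/-- **Module RAY.** -/
theorem ray : RayT := by
  intro hbus e q F _ _ hvar hfar s η m1 hη hs hsep
  classical
  have hF := ae_Far hfar
  rw [ae_iff] at hF ⊢
  refine nonpos_iff_eq_zero.1 ?_
  -- for every `ε`
  have key : ∀ ε : ℝ, 0 < ε → PM e F {ω | ¬ ∃ R : Finset (ℕ → V e), s.card ≤ R.card ∧
      ∀ x ∈ R, Ray q ω x} ≤ s.card * ENNReal.ofReal (2 * ε) := by
    intro ε hε
    have h1 : ∀ c : E e, ∃ m0 : ℕ, c ∈ s → ∀ m : ℕ, m0 ≤ m → ∃ N0 : ℕ, ∀ N : ℕ, N0 ≤ N →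
        ∑ t ∈ Finset.range N, PM e F (Bad q F c η m t) ≤ ENNReal.ofReal (ε * N) := by
      intro c
      by_cases hc : c ∈ s
      · obtain ⟨y, hy1, hy2, hy3⟩ := hs c hc
        obtain ⟨m0, hm0⟩ := hbus e q F hvar hfar c y hy1 hy2 hy3 η ε hη hε
        exact ⟨m0, fun _ => hm0⟩
      · exact ⟨0, fun hc' => absurd hc' hc⟩
    choose m0 hm0 using h1
    set m : ℕ := max m1 (s.sup m0) with hm
    have h2 : ∀ c ∈ s, PM e F {ω | ∀ᶠ t : ℕ in atTop, ω ∈ Bad q F c η m t} ≤
        ENNReal.ofReal (2 * ε) := by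
      intro c hc
      refine prob_eventually (PM e F) (fun t : ℕ => Bad q F c η m t) hε ?_
      exact hm0 c hc m ((Finset.le_sup hc).trans (le_max_right _ _))
    have h3 : {ω | ¬ ∃ R : Finset (ℕ → V e), s.card ≤ R.card ∧ ∀ x ∈ R, Ray q ω x} ⊆
        {ω | ¬ Far q ω} ∪ ⋃ c ∈ s, {ω | ∀ᶠ t : ℕ in atTop, ω ∈ Bad q F c η m t} := by
      intro ω hω
      by_contra hne
      rw [Set.mem_union, not_or] at hne
      obtain ⟨hne1, hne2⟩ := hne
      have hFar : Far q ω := by
        by_contra hh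
        exact hne1 hh
      have hgood : ∀ c ∈ s, ∃ᶠ t : ℕ in atTop, ω ∉ Bad q F c η m t := by
        intro c hc
        by_contra hh
        rw [not_frequently] at hh
        refine hne2 (Set.mem_iUnion₂.2 ⟨c, hc, ?_⟩)
        show ∀ᶠ t : ℕ in atTop, ω ∈ Bad q F c η m t
        filter_upwards [hh] with t ht
        by_contra h4
        exact ht h4
      have h4 : ∀ c : E e, ∃ x : ℕ → V e, c ∈ s → Ray q ω x ∧
          ∀ k, n1 (x k) = m → g q F (x k) ≤ lf c (x k) + η * m := by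
        intro c
        by_cases hc : c ∈ s
        · obtain ⟨y, hy1, -, -⟩ := hs c hc
          obtain ⟨x, hx⟩ := exists_ray hFar c y hy1 (hgood c hc)
          exact ⟨x, fun _ => hx⟩
        · exact ⟨fun _ => 0, fun hc' => absurd hc' hc⟩
      choose x hx using h4
      refine hω ⟨s.image x, ?_, ?_⟩
      · rw [Finset.card_image_of_injOn]
        intro c hc c' hc' hcc
        by_contra hne
        obtain ⟨k, hk⟩ := Ray.exists_dist (hx c hc).1 m
        have h5 := (hx c hc).2 k hk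
        have hcc' : x c = x c' := hcc
        have h6 := (hx c' hc').2 k (by rw [← hcc']; exact hk)
        rw [← hcc'] at h6
        have h7 : (n1 (x c k) : ℝ) = m := by rw [hk]; simp
        refine hsep c hc c' hc' hne (x c k) ?_ ?_ ?_
        · rw [hk]
          exact_mod_cast le_max_left _ _
        · rw [h7]; exact h5
        · rw [h7]; exact h6
      · intro x' hx'
        obtain ⟨c, hc, rfl⟩ := Finset.mem_image.1 hx'
        exact (hx c hc).1
    calc PM e F {ω | ¬ ∃ R : Finset (ℕ → V e), s.card ≤ R.card ∧ ∀ x ∈ R, Ray q ω x}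
        ≤ PM e F ({ω | ¬ Far q ω} ∪
            ⋃ c ∈ s, {ω | ∀ᶠ t : ℕ in atTop, ω ∈ Bad q F c η m t}) := measure_mono h3
      _ ≤ PM e F {ω | ¬ Far q ω} +
            PM e F (⋃ c ∈ s, {ω | ∀ᶠ t : ℕ in atTop, ω ∈ Bad q F c η m t}) :=
          measure_union_le _ _
      _ ≤ 0 + ∑ c ∈ s, PM e F {ω | ∀ᶠ t : ℕ in atTop, ω ∈ Bad q F c η m t} := by
          rw [hF]
          exact add_le_add le_rfl (measure_biUnion_finset_le _ _)
      _ ≤ 0 + ∑ _c ∈ s, ENNReal.ofReal (2 * ε) := add_le_add le_rfl (Finset.sum_le_sum h2)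
      _ = s.card * ENNReal.ofReal (2 * ε) := by
          rw [zero_add, Finset.sum_const, nsmul_eq_mul]
  have h2 : Tendsto (fun n : ℕ => (s.card : ℝ≥0∞) *
      ENNReal.ofReal (2 * (1 / ((n : ℝ) + 1)))) atTop (𝓝 0) := by
    have h3 : Tendsto (fun n : ℕ => ENNReal.ofReal (2 * (1 / ((n : ℝ) + 1)))) atTop (𝓝 0) := by
      rw [← ENNReal.ofReal_zero]
      refine ENNReal.tendsto_ofReal ?_
      have h4 := (tendsto_one_div_add_atTop_nhds_zero_nat (𝕜 := ℝ)).const_mul 2
      rwa [mul_zero] at h4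
    have h5 := ENNReal.Tendsto.const_mul (a := (s.card : ℝ≥0∞)) h3
      (Or.inr (ENNReal.natCast_ne_top _))
    rwa [mul_zero] at h5
  exact ge_of_tendsto' h2 fun n => key _ (by positivity)

end Pool.Agent.J6H54.NX
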