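import Pool.Agent.J6H99.NX.Dev

/-!
# Concentration of the passage times, uniformly in a ball (weights with an exponential moment)
-/

set_option autoImplicit false

open MeasureTheory ProbabilityTheory Filter Topology
open scoped ENNReal

namespace Pool.Agent.J6H54.NX

open Pool.Agent.J6H99.NX

variable {e : ℕ}

/-- Chebyshev -/
lemma cheb {q : Par} {F : Measure ℝ} [IsProbabilityMeasure F] [MB q F] {C : ℝ} (x : V e)
    (hC : ∫ ω, (T q ω 0 x - g q F x) ^ 2 ∂(PM e F) ≤ C * n1 x) {r : ℝ}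
    (hr : 0 < r) : PM e F {ω | r ≤ |T q ω 0 x - g q F x|} ≤ ENNReal.ofReal (C * n1 x / r ^ 2) := by
  have hint : Integrable (fun ω : Om e => (T q ω 0 x - g q F x) ^ 2) (PM e F) :=
    ((memLp_T q F 0 x).sub (memLp_const _)).integrable_sq
  have h1 := mul_meas_ge_le_integral_of_nonneg (μ := PM e F)
    (f := fun ω : Om e => (T q ω 0 x - g q F x) ^ 2) (ae_of_all _ fun ω => sq_nonneg _) hint
    (r ^ 2)
  have h2 : {ω : Om e | r ≤ |T q ω 0 x - g q F x|} = {ω | r ^ 2 ≤ (T q ω 0 x - g q F x) ^ 2} := by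
    ext ω
    show r ≤ |T q ω 0 x - g q F x| ↔ r ^ 2 ≤ (T q ω 0 x - g q F x) ^ 2
    rw [← sq_abs (T q ω 0 x - g q F x)]
    constructor
    · exact fun h => pow_le_pow_left₀ hr.le h 2
    · exact fun h => le_of_sq_le_sq h (abs_nonneg _)
  rw [h2, ← ofReal_measureReal]
  refine ENNReal.ofReal_le_ofReal ?_
  rw [le_div_iff₀ (by positivity), mul_comm]
  exact h1.trans hC

/-- **Uniform concentration in a ball.** -/
theorem conc {q : Par} {F : Measure ℝ} [IsProbabilityMeasure F] [MB q F] (hvar : VarB e q F)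
    {δ K ε : ℝ} (hδ : 0 < δ) (hK : 0 < K) (hε : 0 < ε) :
    ∃ R0 : ℝ, 0 < R0 ∧ ∀ R : ℝ, R0 ≤ R →
      PM e F {ω | ∃ y : V e, (n1 y : ℝ) ≤ K * R ∧ δ * R < |T q ω 0 y - g q F y|} ≤
        ENNReal.ofReal ε := by
  obtain ⟨R0, h0, h⟩ := unif q F hvar hK hδ hε
  refine ⟨R0, h0, fun R hR => (measure_mono ?_).trans (h R hR)⟩
  rintro ω ⟨y, h1, h2⟩
  exact ⟨y, h1, h2.le⟩

end Pool.Agent.J6H54.NX
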