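import Pool.Agent.J6H99.NX.Stm3
import Pool.Agent.J6H54.NX.Ray

/-!
# Module RAY2: more than `N` rays if the gradients are not covered by `N` directions
-/

set_option autoImplicit false

open MeasureTheory ProbabilityTheory Filter Topology
open scoped ENNReal

namespace Pool.Agent.J6H54.NX

open Pool.Agent.J6H99.NX

variable {e : ℕ}

/-- rays for finitely many gradients, good at a common distance -/
theorem rays_of_bus (hbus : BusT) {q : Par} {F : Measure ℝ} [IsProbabilityMeasure F] [MB q F]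
    (hvar : VarB e q F) (hfar : FarB e q F) (s : Finset (E e)) {η : ℝ} (m1 : ℕ) (hη : 0 < η)
    (hs : ∀ c ∈ s, Grad q F c) :
    ∀ᵐ ω ∂(PM e F), ∃ m : ℕ, m1 ≤ m ∧ ∃ x : E e → ℕ → V e, ∀ c ∈ s, Ray q ω (x c) ∧
      ∀ k, n1 (x c k) = m → g q F (x c k) ≤ lf c (x c k) + η * m := by
  classical
  have hF := ae_Far hfar
  rw [ae_iff] at hF ⊢
  refine nonpos_iff_eq_zero.1 ?_
  have key : ∀ ε : ℝ, 0 < ε → PM e F {ω | ¬ ∃ m : ℕ, m1 ≤ m ∧ ∃ x : E e → ℕ → V e, ∀ c ∈ s,
      Ray q ω (x c) ∧ ∀ k, n1 (x c k) = m → g q F (x c k) ≤ lf c (x c k) + η * m} ≤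
      s.card * ENNReal.ofReal (2 * ε) := by
    intro ε hε
    have h1 : ∀ c : E e, ∃ m0 : ℕ, c ∈ s → ∀ m : ℕ, m0 ≤ m → ∃ N0 : ℕ, ∀ N : ℕ, N0 ≤ N →
        ∑ t ∈ Finset.range N, PM e F (Bad q F c η m t) ≤ ENNReal.ofReal (ε * N) := by
      intro c
      by_cases hc : c ∈ s
      · obtain ⟨y, hy1, hy2, hy3⟩ := hs c hc
        obtain ⟨m0, hm0⟩ := hbus e q F hvar hfar c y hy1 hy2 hy3 η ε hη hε
        exact ⟨m0, fun _ => hm0⟩
      · exact ⟨0, fun hc' => absurd hc' hc⟩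
    choose m0 hm0 using h1
    set m : ℕ := max m1 (s.sup m0) with hm
    have h2 : ∀ c ∈ s, PM e F {ω | ∀ᶠ t : ℕ in atTop, ω ∈ Bad q F c η m t} ≤
        ENNReal.ofReal (2 * ε) := by
      intro c hc
      refine prob_eventually (PM e F) (fun t : ℕ => Bad q F c η m t) hε ?_
      exact hm0 c hc m ((Finset.le_sup hc).trans (le_max_right _ _))
    have h3 : {ω | ¬ ∃ m : ℕ, m1 ≤ m ∧ ∃ x : E e → ℕ → V e, ∀ c ∈ s,
        Ray q ω (x c) ∧ ∀ k, n1 (x c k) = m → g q F (x c k) ≤ lf c (x c k) + η * m} ⊆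
        {ω | ¬ Far q ω} ∪ ⋃ c ∈ s, {ω | ∀ᶠ t : ℕ in atTop, ω ∈ Bad q F c η m t} := by
      intro ω hω
      by_contra hne
      rw [Set.mem_union, not_or] at hne
      obtain ⟨hne1, hne2⟩ := hne
      have hFar : Far q ω := by
        by_contra hh
        exact hne1 hh
      have hgood : ∀ c ∈ s, ∃ᶠ t : ℕ in atTop, ω ∉ Bad q F c η m t := by
        intro c hc
        by_contra hh
        rw [not_frequently] at hh
        refine hne2 (Set.mem_iUnion₂.2 ⟨c, hc, ?_⟩)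
        show ∀ᶠ t : ℕ in atTop, ω ∈ Bad q F c η m t
        filter_upwards [hh] with t ht
        by_contra h4
        exact ht h4
      have h4 : ∀ c : E e, ∃ x : ℕ → V e, c ∈ s → Ray q ω x ∧
          ∀ k, n1 (x k) = m → g q F (x k) ≤ lf c (x k) + η * m := by
        intro c
        by_cases hc : c ∈ s
        · obtain ⟨y, hy1, -, -⟩ := hs c hc
          obtain ⟨x, hx⟩ := exists_ray hFar c y hy1 (hgood c hc)
          exact ⟨x, fun _ => hx⟩
        · exact ⟨fun _ => 0, fun hc' => absurd hc' hc⟩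
      choose x hx using h4
      exact hω ⟨m, le_max_left _ _, x, hx⟩
    calc PM e F {ω | ¬ ∃ m : ℕ, m1 ≤ m ∧ ∃ x : E e → ℕ → V e, ∀ c ∈ s,
          Ray q ω (x c) ∧ ∀ k, n1 (x c k) = m → g q F (x c k) ≤ lf c (x c k) + η * m}
        ≤ PM e F ({ω | ¬ Far q ω} ∪
            ⋃ c ∈ s, {ω | ∀ᶠ t : ℕ in atTop, ω ∈ Bad q F c η m t}) := measure_mono h3
      _ ≤ PM e F {ω | ¬ Far q ω} +
            PM e F (⋃ c ∈ s, {ω | ∀ᶠ t : ℕ in atTop, ω ∈ Bad q F c η m t}) :=
          measure_union_le _ _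
      _ ≤ 0 + ∑ c ∈ s, PM e F {ω | ∀ᶠ t : ℕ in atTop, ω ∈ Bad q F c η m t} := by
          rw [hF]
          exact add_le_add le_rfl (measure_biUnion_finset_le _ _)
      _ ≤ 0 + ∑ _c ∈ s, ENNReal.ofReal (2 * ε) := add_le_add le_rfl (Finset.sum_le_sum h2)
      _ = s.card * ENNReal.ofReal (2 * ε) := by
          rw [zero_add, Finset.sum_const, nsmul_eq_mul]
  have h2 : Tendsto (fun n : ℕ => (s.card : ℝ≥0∞) *
      ENNReal.ofReal (2 * (1 / ((n : ℝ) + 1)))) atTop (𝓝 0) := by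
    have h3 : Tendsto (fun n : ℕ => ENNReal.ofReal (2 * (1 / ((n : ℝ) + 1)))) atTop (𝓝 0) := by
      rw [← ENNReal.ofReal_zero]
      refine ENNReal.tendsto_ofReal ?_
      have h4 := (tendsto_one_div_add_atTop_nhds_zero_nat (𝕜 := ℝ)).const_mul 2
      rwa [mul_zero] at h4
    have h5 := ENNReal.Tendsto.const_mul (a := (s.card : ℝ≥0∞)) h3
      (Or.inr (ENNReal.natCast_ne_top _))
    rwa [mul_zero] at h5
  exact ge_of_tendsto' h2 fun n => key _ (by positivity)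

lemma n1_nsmul_u (m : ℕ) : n1 ((m : ℤ) • (u 0 : V e)) = m := by
  unfold n1
  rw [Finset.sum_eq_single 0]
  · simp [u]
  · intro j _ hj
    simp [u, Pi.single_eq_of_ne hj]
  · simp

/-- **Module RAY2.** -/
theorem ray2 : Ray2T := by
  intro hbus e q F _ _ hvar hfar s N η m1 hη hsne hs hcov
  classical
  filter_upwards [rays_of_bus hbus hvar hfar s m1 hη hs] with ω hω
  obtain ⟨m, hm, x, hx⟩ := hω
  refine ⟨s.image x, ?_, ?_⟩
  · by_contra hlt
    push Not at hlt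
    have hcard : (s.image x).card ≤ N := by omega
    -- number the rays
    obtain ⟨c0, hc0⟩ := hsne
    have hpos : 0 < (s.image x).card :=
      Finset.card_pos.2 ⟨x c0, Finset.mem_image_of_mem x hc0⟩
    have hN : 0 < N := hpos.trans_le hcard
    let i0 : Fin N := ⟨0, hN⟩
    let ψ : (ℕ → V e) → Fin N := fun y =>
      if hy : y ∈ s.image x then Fin.castLE hcard ((s.image x).equivFin ⟨y, hy⟩) else i0
    have hψ : ∀ y ∈ s.image x, ∀ y' ∈ s.image x, ψ y = ψ y' → y = y' := by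
      intro y hy y' hy' h
      simp only [ψ, dif_pos hy, dif_pos hy'] at h
      have h1 := Fin.castLE_injective hcard h
      have h2 := (s.image x).equivFin.injective h1
      exact congrArg Subtype.val h2
    obtain ⟨j, hj⟩ := hcov fun c => ψ (x c)
    obtain ⟨c, hc, hcj, -⟩ := hj ((m1 : ℤ) • (u 0 : V e)) (by rw [n1_nsmul_u])
    obtain ⟨k, hk⟩ := Ray.exists_dist (hx c hc).1 m
    obtain ⟨c', hc', hcj', hlt'⟩ := hj (x c k) (by rw [hk]; exact_mod_cast hm)
    have h3 : x c' = x c := hψ _ (Finset.mem_image_of_mem x hc') _ (Finset.mem_image_of_mem x hc)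
      (hcj'.trans hcj.symm)
    have h4 := (hx c' hc').2 k (by rw [h3]; exact hk)
    rw [h3] at h4
    have h7 : (n1 (x c k) : ℝ) = m := by rw [hk]; simp
    rw [h7] at hlt'
    linarith
  · intro x' hx'
    obtain ⟨c, hc, rfl⟩ := Finset.mem_image.1 hx'
    exact (hx c hc).1

end Pool.Agent.J6H54.NX
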